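import Mathlib

set_option autoImplicit false

namespace Pool.Agent.Results.MP_14f819_nt.OnlyOne
open Polynomial

/-- Lucas polynomials. -/
noncomputable def L : ℕ → ℤ[X]
  | 0 => 2
  | 1 => X
  | n + 2 => X * L (n + 1) + L n

/-- For a root `θ` of `f`, every algebraic integer of `ℚ(θ)` lies in `ℤ[θ]`. -/
def Monogenic (f : ℤ[X]) : Prop :=
  ∃ θ : ℂ, aeval θ f = 0 ∧ ∀ y ∈ IntermediateField.adjoin ℚ {θ}, IsIntegral ℤ y →
    y ∈ Algebra.adjoin ℤ {θ}

theorem evalL (w v : ℂ) (h : w * v = -1) : ∀ n, aeval (w + v) (L n) = w ^ n + v ^ n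
  | 0 => by simp [L, map_ofNat]; norm_num
  | 1 => by simp [L]
  | n + 2 => by
    simp only [L, map_add, map_mul, aeval_X, evalL w v h (n + 1), evalL w v h n]
    linear_combination (w ^ n + v ^ n) * h

theorem cv {x y : ℂ} (h : IsIntegral ℤ x) (e : y = x) : IsIntegral ℤ y := e ▸ h

theorem key {n : ℕ} (hn : Odd n) (w : ℂ) (hw : w ^ n = 1) (h0 : w - w⁻¹ ≠ 0) :
    ¬ ∀ y ∈ IntermediateField.adjoin ℚ {w - w⁻¹}, IsIntegral ℤ y →
      y ∈ Algebra.adjoin ℤ {w - w⁻¹} := by
  intro h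
  have hw0 : w ≠ 0 := by rintro rfl; simp at h0
  have hwi : IsIntegral ℤ w := IsIntegral.of_pow hn.pos (by rw [hw]; exact isIntegral_one)
  have hc : starRingEnd ℂ w = w⁻¹ :=
    (Complex.inv_eq_conj (Complex.norm_eq_one_of_pow_eq_one hw hn.pos.ne')).symm
  have hθ : IsIntegral ℤ (w - w⁻¹) := hwi.sub (hc ▸ hwi.map (starRingEnd ℂ).toIntAlgHom)
  set F := IntermediateField.adjoin ℚ {w - w⁻¹}
  have hF : w - w⁻¹ ∈ F := IntermediateField.subset_adjoin _ _ rfl
  have ch : ∀ k : ℕ, w ^ (2 * k) + w⁻¹ ^ (2 * k) ∈ F ∧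
      w ^ (2 * (k + 1)) + w⁻¹ ^ (2 * (k + 1)) ∈ F := by
    have h2 : w ^ 2 + w⁻¹ ^ 2 ∈ F := by
      convert F.add_mem (F.mul_mem hF hF) (natCast_mem F 2) using 1
      field_simp; ring
    intro k
    induction k with
    | zero => exact ⟨by simpa using F.add_mem F.one_mem F.one_mem, h2⟩
    | succ k ih =>
      refine ⟨ih.2, ?_⟩
      convert F.sub_mem (F.mul_mem h2 ih.2) ih.1 using 1
      have := mul_inv_cancel₀ hw0
      linear_combination (-(w ^ (2 * k) + w⁻¹ ^ (2 * k)) * (w * w⁻¹ + 1)) * this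
  obtain ⟨k, hk⟩ := hn
  have hwF : w ∈ F := by
    have h1 := (ch k).2
    rw [show 2 * (k + 1) = n + 1 by omega, pow_succ, pow_succ, inv_pow, hw, inv_one] at h1
    convert F.div_mem (F.add_mem h1 hF) (natCast_mem F 2) using 1
    push_cast; ring
  have hy : ∀ y ∈ Algebra.adjoin ℤ {w - w⁻¹}, IsIntegral ℤ y ∧ IsIntegral ℤ (starRingEnd ℂ y) ∧
      IsIntegral ℤ ((y - starRingEnd ℂ y) / 2) := by
    intro y hy
    induction hy using Algebra.adjoin_induction with
    | mem x hx =>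
      obtain rfl : x = w - w⁻¹ := hx
      refine ⟨hθ, hθ.map (starRingEnd ℂ).toIntAlgHom, ?_⟩
      convert hθ using 1
      rw [map_sub, map_inv₀, hc, inv_inv]; ring
    | algebraMap r => exact ⟨isIntegral_algebraMap, by simpa using isIntegral_intCast r,
        by simpa using isIntegral_zero⟩
    | add x y _ _ a b =>
      refine ⟨a.1.add b.1, by rw [map_add]; exact a.2.1.add b.2.1, ?_⟩
      refine cv (a.2.2.add b.2.2) ?_
      rw [map_add]; ring
    | mul x y _ _ a b =>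
      refine ⟨a.1.mul b.1, by rw [map_mul]; exact a.2.1.mul b.2.1, ?_⟩
      refine cv ((a.1.mul b.2.2).add (a.2.2.mul b.2.1)) ?_
      rw [map_mul]; ring
  have h1 := (hy w (h w hwF hwi)).2.2
  rw [hc] at h1
  have h2 : IsIntegral ℤ ((w ^ 2 - 1) / 2) := by
    refine cv (hwi.mul h1) ?_
    field_simp
  have h3 : ∀ j : ℕ, IsIntegral ℤ (((w ^ 2) ^ j - 1) / 2) := fun j => by
    rw [← geom_sum_mul, mul_div_assoc]
    exact (IsIntegral.sum _ fun i _ => (hwi.pow 2).pow i).mul h2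
  have h4 : ∑ j ∈ Finset.range n, (w ^ 2) ^ j = 0 := by
    have := geom_sum_mul (w ^ 2) n
    rw [← pow_mul, mul_comm 2, pow_mul, hw, one_pow, sub_self] at this
    refine (mul_eq_zero.1 this).resolve_right fun h => h0 ?_
    field_simp
    linear_combination h
  have h5 : IsIntegral ℤ (algebraMap ℚ ℂ (1 / 2)) := by
    refine cv ((IsIntegral.sum (s := Finset.range n) _ fun j _ => h3 j).add
      (isIntegral_natCast k)).neg ?_
    rw [← Finset.sum_div, Finset.sum_sub_distrib, h4, hk]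
    simp
    ring
  obtain ⟨z, hz⟩ := IsIntegrallyClosed.isIntegral_iff.1
    ((isIntegral_algebraMap_iff (algebraMap ℚ ℂ).injective).1 h5)
  have : (2 * z : ℤ) = 1 := by
    have : (z : ℚ) = 1 / 2 := hz
    exact_mod_cast (by rw [this]; norm_num : (2 * z : ℚ) = 1)
  omega

theorem result (n : ℕ) (hn : Odd n) :
    (∀ f : ℤ[X], f.Monic → Irreducible f → f ∣ L n → Monogenic f) ↔ n = 1 := by
  constructor
  · intro h
    by_contra h1
    have hz := Complex.isPrimitiveRoot_exp n hn.pos.ne'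
    generalize Complex.exp _ = z at hz
    have hz0 : z ≠ 0 := hz.ne_zero hn.pos.ne'
    have hzi : IsIntegral ℤ z := hz.isIntegral hn.pos
    have hθ : IsIntegral ℤ (z + -z⁻¹) := hzi.add (hz.inv.isIntegral hn.pos).neg
    have hd : minpoly ℤ (z + -z⁻¹) ∣ L n := minpoly.isIntegrallyClosed_dvd hθ (by
      rw [evalL z _ (by field_simp), hn.neg_pow, inv_pow, hz.pow_eq_one]; simp)
    obtain ⟨θ, h2, h3⟩ := h _ (minpoly.monic hθ) (minpoly.irreducible hθ) hd
    have h4 : θ ≠ 0 := by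
      rintro rfl
      have a1 : X ∣ minpoly ℤ (z + -z⁻¹) := by
        rw [X_dvd_iff]
        simpa [aeval_def, eval₂_at_zero] using h2
      obtain ⟨c, hc⟩ := (irreducible_X.associated_of_dvd (minpoly.irreducible hθ) a1).symm.dvd
      have a3 := congrArg (aeval (z + -z⁻¹)) hc
      rw [map_mul, minpoly.aeval, zero_mul, aeval_X] at a3
      have a4 : z ^ 2 = 1 := by field_simp at a3; linear_combination a3
      have := Nat.le_of_dvd two_pos (hz.dvd_of_pow_eq_one 2 a4)
      obtain ⟨k, rfl⟩ := hn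
      omega
    obtain ⟨s, hs⟩ := IsAlgClosed.exists_pow_nat_eq (θ ^ 2 + 4) two_pos
    have b1 : (θ + s) / 2 * ((θ - s) / 2) = -1 := by linear_combination (-1 / 4) * hs
    have b2 := evalL _ _ b1 n
    have b3 : (θ + s) / 2 + (θ - s) / 2 = θ := by ring
    rw [b3, aeval_eq_zero_of_dvd_aeval_eq_zero hd h2] at b2
    generalize (θ + s) / 2 = w, (θ - s) / 2 = v at b1 b2 b3
    have b4 : w ^ n * v ^ n = -1 := by rw [← mul_pow, b1, hn.neg_one_pow]
    have b5 : (w ^ n - 1) * (v ^ n - 1) = 0 := by linear_combination b4 + b2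
    subst b3
    rcases mul_eq_zero.1 b5 with h5 | h5
    · have : w + v = w - w⁻¹ := by
        rw [inv_eq_of_mul_eq_one_right (show w * -v = 1 by linear_combination -b1)]; ring
      rw [this] at h3 h4
      exact key hn w (sub_eq_zero.1 h5) h4 h3
    · have : w + v = v - v⁻¹ := by
        rw [inv_eq_of_mul_eq_one_right (show v * -w = 1 by linear_combination -b1)]; ring
      rw [this] at h3 h4
      exact key hn v (sub_eq_zero.1 h5) h4 h3
  · rintro rfl f h1 h2 h3
    obtain rfl : f = X := eq_of_monic_of_associated h1 monic_X (h2.associated_of_dvd irreducible_X h3)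
    refine ⟨0, by simp, fun y hy hi => ?_⟩
    rw [IntermediateField.adjoin_zero, IntermediateField.mem_bot] at hy
    obtain ⟨q, rfl⟩ := hy
    obtain ⟨z, rfl⟩ := IsIntegrallyClosed.isIntegral_iff.1
      ((isIntegral_algebraMap_iff (algebraMap ℚ ℂ).injective).1 hi)
    simp

end Pool.Agent.Results.MP_14f819_nt.OnlyOne
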